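import Pool.Agent.Helper98.MEI.Wall2
import Pool.Agent.Helper55.MEI.Plane

/-!
# The plane form of the face certificate with second order wall terms
-/

namespace Pool.Agent.Helper98.Wall2

open Set MeasureTheory Pool.Agent.Helper55.Sx Pool.Agent.Helper55.Mass Pool.Agent.Helper55.Apex
  Pool.Agent.Helper55.Fill

variable {N : Fin 3 → Fin 3 → ℝ}

/-- the second order wall constant of the coordinate `j` -/
noncomputable def wc2 (N : Fin 3 → Fin 3 → ℝ) (j l k : Fin 3) : ℝ :=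
  J2 (N l j) (N l k) + J2 (N k j) (N k l)

/-- residual below the wall terms, second order -/
theorem res_gen2 (hN : ∀ k m, 0 ≤ N k m) (hN' : ∀ k m, N k m ≤ 2 / 5) (hd : ∀ k, N k k = 0)
    {j l k : Fin 3} (hjl : j ≠ l) (hjk : j ≠ k) (hlk : l ≠ k) {g : ℝ × ℝ → ℝ}
    (hg : IntegrableOn (fun t => g t / mm t ^ 2) Sim)
    (h : ∀ t ∈ Sim, g t ≤ (1 - thl N (vv t) l) * vv t j + (1 - thl N (vv t) k) * vv t j) :
    Pool.Agent.Helper55.Mass.Id g ≤ wc2 N j l k := by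
  have wl := wl_int hN l j
  have wk := wl_int hN k j
  have hle : ∫ t in Sim, g t / mm t ^ 2 ≤ ∫ t in Sim, ((1 - thl N (vv t) l) * vv t j / mm t ^ 2
      + (1 - thl N (vv t) k) * vv t j / mm t ^ 2) := by
    refine setIntegral_mono_on hg (wl.add wk) Sim_meas fun t ht => ?_
    have hm : 0 ≤ mm t ^ 2 := by positivity
    have h2 := div_le_div_of_nonneg_right (h t ht) hm
    refine le_trans h2 (le_of_eq ?_)
    ring
  have y1 := integral_add wl wk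
  rw [y1] at hle
  have h0 : (0 : ℝ) ≤ 1 / √2 := by positivity
  have h1 := mul_le_mul_of_nonneg_left hle h0
  have hwl := wl_le2 hN hN' hd (Ne.symm hjl) hlk hjk
  have hwk := wl_le2 hN hN' hd (Ne.symm hjk) (Ne.symm hlk) hjl
  rw [mul_add] at h1
  unfold wc2 Pool.Agent.Helper55.Mass.Id
  linarith

/-- **mass of the residual, second order** -/
theorem rr_mass2 (hN : ∀ k m, 0 ≤ N k m) (hN' : ∀ k m, N k m ≤ 2 / 5) (hd : ∀ k, N k k = 0)
    {c : ℝ} (hc : c < 1) (hcol : ∀ m, nc N m ≤ c) {j l k : Fin 3} (hjl : j ≠ l) (hjk : j ≠ k)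
    (hlk : l ≠ k) : Pool.Agent.Helper55.Mass.Id (fun t => rr N (vv t) j) ≤ wc2 N j l k :=
  res_gen2 hN hN' hd hjl hjk hlk (rr_int hN hc hcol j) fun _ ht =>
    rr_le hN hc hcol (fun k => vv_nonneg ht k) hjl hjk hlk

/-- **plane form with arbitrary residual masses `w j`** -/
theorem value_plane_gen {ι : Type*} [Fintype ι] (hN : ∀ k m, 0 ≤ N k m)
    {c : ℝ} (hc : c < 1) (hcol : ∀ m, nc N m ≤ c) {al : ι → ℝ × ℝ → ℝ}
    (hal : ∀ m, IntegrableOn (fun t => al m t / mm t ^ 2) Sim) {ζ : ι → Fin 3 → ℝ} {L : ι → ℝ}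
    {R S ρ w : Fin 3 → ℝ} (hρ : ∀ j, R j = ρ j + (N 0 j * ρ 0 + N 1 j * ρ 1 + N 2 j * ρ 2))
    (hw : ∀ j, Pool.Agent.Helper55.Mass.Id (fun t => rr N (vv t) j) ≤ w j) :
    ∑ m, (L m - ((ζ m 0 + LN N (ζ m) 0) * ρ 0 + (ζ m 1 + LN N (ζ m) 1) * ρ 1
        + (ζ m 2 + LN N (ζ m) 2) * ρ 2)) * Pool.Agent.Helper55.Mass.Id (al m)
      + B0 * (ρ 0 + ρ 1 + ρ 2)
      - (max (S 0 + ρ 0) 0 * w 0 + max (S 1 + ρ 1) 0 * w 1 + max (S 2 + ρ 2) 0 * w 2)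
    ≤ Pool.Agent.Helper55.Mass.Id (fun t => ∑ m, al m t * L m
        + (xe N al ζ t 0 * R 0 + xe N al ζ t 1 * R 1 + xe N al ζ t 2 * R 2)
        - (rr N (vv t) 0 * S 0 + rr N (vv t) 1 * S 1 + rr N (vv t) 2 * S 2)) := by
  rw [value_plane hN hc hcol hal hρ]
  have p0 := rr_Id_nonneg hN hc hcol 0
  have p1 := rr_Id_nonneg hN hc hcol 1
  have p2 := rr_Id_nonneg hN hc hcol 2
  have key : ∀ {x I w : ℝ}, 0 ≤ I → I ≤ w → x * I ≤ max x 0 * w := by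
    intro x I w h1 h2
    calc x * I ≤ max x 0 * I := mul_le_mul_of_nonneg_right (le_max_left _ _) h1
      _ ≤ max x 0 * w := mul_le_mul_of_nonneg_left h2 (le_max_right _ _)
  have q0 := key (x := S 0 + ρ 0) p0 (hw 0)
  have q1 := key (x := S 1 + ρ 1) p1 (hw 1)
  have q2 := key (x := S 2 + ρ 2) p2 (hw 2)
  linarith

/-- **plane form, second order walls** -/
theorem value_plane_ge2 {ι : Type*} [Fintype ι] (hN : ∀ k m, 0 ≤ N k m)
    (hN' : ∀ k m, N k m ≤ 2 / 5) (hd : ∀ k, N k k = 0)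
    {c : ℝ} (hc : c < 1) (hcol : ∀ m, nc N m ≤ c) {al : ι → ℝ × ℝ → ℝ}
    (hal : ∀ m, IntegrableOn (fun t => al m t / mm t ^ 2) Sim) {ζ : ι → Fin 3 → ℝ} {L : ι → ℝ}
    {R S ρ : Fin 3 → ℝ} (hρ : ∀ j, R j = ρ j + (N 0 j * ρ 0 + N 1 j * ρ 1 + N 2 j * ρ 2)) :
    ∑ m, (L m - ((ζ m 0 + LN N (ζ m) 0) * ρ 0 + (ζ m 1 + LN N (ζ m) 1) * ρ 1
        + (ζ m 2 + LN N (ζ m) 2) * ρ 2)) * Pool.Agent.Helper55.Mass.Id (al m)
      + B0 * (ρ 0 + ρ 1 + ρ 2)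
      - (max (S 0 + ρ 0) 0 * wc2 N 0 1 2 + max (S 1 + ρ 1) 0 * wc2 N 1 0 2
        + max (S 2 + ρ 2) 0 * wc2 N 2 0 1)
    ≤ Pool.Agent.Helper55.Mass.Id (fun t => ∑ m, al m t * L m
        + (xe N al ζ t 0 * R 0 + xe N al ζ t 1 * R 1 + xe N al ζ t 2 * R 2)
        - (rr N (vv t) 0 * S 0 + rr N (vv t) 1 * S 1 + rr N (vv t) 2 * S 2)) := by
  refine value_plane_gen (w := ![wc2 N 0 1 2, wc2 N 1 0 2, wc2 N 2 0 1]) hN hc hcol hal hρ
    fun j => ?_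
  fin_cases j
  · exact rr_mass2 hN hN' hd hc hcol (j := 0) (l := 1) (k := 2) (by decide) (by decide)
      (by decide)
  · exact rr_mass2 hN hN' hd hc hcol (j := 1) (l := 0) (k := 2) (by decide) (by decide)
      (by decide)
  · exact rr_mass2 hN hN' hd hc hcol (j := 2) (l := 0) (k := 1) (by decide) (by decide)
      (by decide)

end Pool.Agent.Helper98.Wall2
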