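import Pool.Agent.Helper55.MEI.Mass

/-!
# Second order wall integral

`J(A, B) ≤ .16722 A + .09323 B - .0763 A² - .0608 A B - .0304 B²` for `0 ≤ A, B ≤ 2/5`.
-/

namespace Pool.Agent.Helper98.Wall2

open Set MeasureTheory Pool.Agent.Helper55.Sx Pool.Agent.Helper55.Mass

/-- the polynomial inequality behind the second order fibre bound (`y = 1 + σ`) -/
theorem poly_pos {u σ : ℝ} (hu : 0 ≤ u) (hu2 : u ≤ 2 / 5) (hs : 0 ≤ σ) (hs2 : σ ≤ 1 / 4) :
    0 ≤ (0.32 - 3 * σ ^ 2) + (-1.36 + 0.64 * σ - 2 * σ ^ 3) * u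
      + (0.96 + 7.28 * σ + 6.32 * σ ^ 2) * u ^ 2
      + (0.64 + 7.28 * σ + 12.64 * σ ^ 2 + 6 * σ ^ 3) * u ^ 3
      + (1.32 + 6.64 * σ + 9.32 * σ ^ 2 + 4 * σ ^ 3) * u ^ 4 := by
  have h0 : 0 ≤ 0.32 - 1.36 * u + 0.96 * u ^ 2 + 0.64 * u ^ 3 + 1.32 * u ^ 4 := by
    nlinarith [mul_nonneg hu (sub_nonneg.mpr hu2), sq_nonneg (u - 2 / 5),
      mul_nonneg (mul_nonneg hu hu) (sub_nonneg.mpr hu2), sq_nonneg (u ^ 2 - 4 / 25)]
  have h1 : 0 ≤ 0.1325 - 1.23125 * u + 2.78 * u ^ 2 + 2.46 * u ^ 3 + 1.32 * u ^ 4 := by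
    have h3 : 0 ≤ u ^ 3 := by positivity
    nlinarith [sq_nonneg (u - 0.2), sq_nonneg (u - 0.15), mul_nonneg hu (sq_nonneg (u - 0.16)),
      sq_nonneg (u ^ 2 - 0.03), h3]
  have hq : 0 ≤ σ * (1 / 4 - σ) := mul_nonneg hs (by linarith)
  have e2 : σ ^ 2 ≤ σ / 4 := by nlinarith
  have e3 : σ ^ 3 ≤ σ / 16 := by nlinarith [mul_nonneg hs hq]
  -- h = -.75 + .515 u + 7.28 u ^ 2 + 7.28 u ^ 3
  have key : 0 ≤ (0.32 - 1.36 * u + 0.96 * u ^ 2 + 0.64 * u ^ 3 + 1.32 * u ^ 4)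
      + σ * (-0.75 + 0.515 * u + 7.28 * u ^ 2 + 7.28 * u ^ 3) := by
    rcases le_total 0 (-0.75 + 0.515 * u + 7.28 * u ^ 2 + 7.28 * u ^ 3) with h | h
    · have := mul_nonneg hs h
      linarith
    · have h2 : σ * (-0.75 + 0.515 * u + 7.28 * u ^ 2 + 7.28 * u ^ 3)
          ≥ 1 / 4 * (-0.75 + 0.515 * u + 7.28 * u ^ 2 + 7.28 * u ^ 3) :=
        mul_le_mul_of_nonpos_right hs2 h
      linarith
  have u2 : 0 ≤ u ^ 2 := by positivity
  have u3 : 0 ≤ u ^ 3 := by positivity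
  have u4 : 0 ≤ u ^ 4 := by positivity
  have s2 : 0 ≤ σ ^ 2 := by positivity
  have s3 : 0 ≤ σ ^ 3 := by positivity
  have t1 : σ ^ 3 * u ≤ σ / 16 * u := mul_le_mul_of_nonneg_right e3 hu
  have t2 := mul_nonneg s2 u2
  have t3 := mul_nonneg s2 u3
  have t4 := mul_nonneg s3 u3
  have t5 := mul_nonneg hs u4
  have t6 := mul_nonneg s2 u4
  have t7 := mul_nonneg s3 u4
  nlinarith [t1, t2, t3, t4, t5, t6, t7, key, e2]

/-- pointwise: `1/(g + u + u²)² ≤ (1/g²) (1 - 2 (1 + σ) u + (1.32 + 4 σ) u²)`, `g = 1 - σ` -/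
theorem ptw {u σ : ℝ} (hu : 0 ≤ u) (hu2 : u ≤ 2 / 5) (hs : 0 ≤ σ) (hs2 : σ ≤ 1 / 4) :
    1 / ((1 - σ) + u + u ^ 2) ^ 2
      ≤ (1 - 2 * (1 + σ) * u + (1.32 + 4 * σ) * u ^ 2) * (1 / (1 - σ) ^ 2) := by
  have hg : 0 < 1 - σ := by linarith
  have hp := poly_pos hu hu2 hs hs2
  have hU : 0 ≤ u + u ^ 2 := by positivity
  have h1 : (1 - σ) * (1 + (1 + σ) * (u + u ^ 2)) ≤ (1 - σ) + u + u ^ 2 := by
    have : (1 - σ) * (1 + σ) ≤ 1 := by nlinarith
    nlinarith [mul_le_mul_of_nonneg_right this hU]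
  have h2 : 0 < (1 - σ) * (1 + (1 + σ) * (u + u ^ 2)) := by positivity
  have h3 : ((1 - σ) * (1 + (1 + σ) * (u + u ^ 2))) ^ 2 ≤ ((1 - σ) + u + u ^ 2) ^ 2 :=
    pow_le_pow_left₀ h2.le h1 2
  refine (one_div_le_one_div_of_le (by positivity) h3).trans ?_
  have h4 : 0 < (1 + (1 + σ) * (u + u ^ 2)) ^ 2 := by positivity
  have h5 : 1 / (1 + (1 + σ) * (u + u ^ 2)) ^ 2
      ≤ 1 - 2 * (1 + σ) * u + (1.32 + 4 * σ) * u ^ 2 := by
    rw [div_le_iff₀ h4]
    have e : (1 - 2 * (1 + σ) * u + (1.32 + 4 * σ) * u ^ 2) * (1 + (1 + σ) * (u + u ^ 2)) ^ 2 - 1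
        = u ^ 2 * ((0.32 - 3 * σ ^ 2) + (-1.36 + 0.64 * σ - 2 * σ ^ 3) * u
      + (0.96 + 7.28 * σ + 6.32 * σ ^ 2) * u ^ 2
      + (0.64 + 7.28 * σ + 12.64 * σ ^ 2 + 6 * σ ^ 3) * u ^ 3
      + (1.32 + 6.64 * σ + 9.32 * σ ^ 2 + 4 * σ ^ 3) * u ^ 4) := by ring
    have := mul_nonneg (sq_nonneg u) hp
    linarith
  calc 1 / ((1 - σ) * (1 + (1 + σ) * (u + u ^ 2))) ^ 2
      = 1 / (1 + (1 + σ) * (u + u ^ 2)) ^ 2 * (1 / (1 - σ) ^ 2) := by
        rw [mul_pow]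
        field_simp
    _ ≤ _ := mul_le_mul_of_nonneg_right h5 (by positivity)

/-- fibre integral of the wall function, second order -/
theorem fibre3 {σ ε S : ℝ} (hs : 0 ≤ σ) (hs2 : σ ≤ 1 / 4) (hε : 0 ≤ ε) (hε2 : ε ≤ 2 / 5)
    (hS : 0 ≤ S) :
    ∫ x in Icc (0 : ℝ) 1, (1 - x) * (if x < (1 - x) * ε then
      (1 - x / ((1 - x) * ε)) * ((1 - x) * S) / ((1 - σ) * (1 - x) ^ 2 + x) ^ 2 else 0)
      ≤ (S * ε / 2) * (1 - (0.5786 + 0.4 * σ) * ε) * (1 / (1 - σ) ^ 2) := by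
  have hg : 0 < 1 - σ := by linarith
  set g : ℝ := 1 - σ with hgdef
  rcases eq_or_lt_of_le hε with h00 | hεp
  · have : ∀ x ∈ Icc (0 : ℝ) 1, (1 - x) * (if x < (1 - x) * ε then
      (1 - x / ((1 - x) * ε)) * ((1 - x) * S) / (g * (1 - x) ^ 2 + x) ^ 2 else 0) = 0 := by
      intro x hx
      rw [← h00, mul_zero, if_neg (by linarith [hx.1]), mul_zero]
    rw [setIntegral_congr_fun measurableSet_Icc this]
    rw [← h00]
    simp
  set p : ℝ := 2 * (1 + σ) with hpdef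
  set q : ℝ := 1.32 + 4 * σ with hqdef
  set xe : ℝ := ε / (1 + ε) with hxe
  have hxe0 : 0 ≤ xe := by positivity
  have hxe1 : xe < 1 := by
    rw [hxe, div_lt_one (by positivity)]
    linarith
  have hxee : xe / (1 - xe) = ε := by
    rw [hxe]
    field_simp
    ring
  have hder : ∀ x ∈ uIcc 0 xe, HasDerivAt
      (fun x : ℝ => (S * ((x / (1 - x)) - (x / (1 - x)) ^ 2 / (2 * ε)
        - p * ((x / (1 - x)) ^ 2 / 2 - (x / (1 - x)) ^ 3 / (3 * ε))
        + q * ((x / (1 - x)) ^ 3 / 3 - (x / (1 - x)) ^ 4 / (4 * ε)))) * (1 / g ^ 2))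
      (S * (1 - x / (1 - x) / ε) * (1 - p * (x / (1 - x)) + q * (x / (1 - x)) ^ 2) / (1 - x) ^ 2
        * (1 / g ^ 2)) x := by
    intro x hx
    rw [uIcc_of_le hxe0] at hx
    have h1 : 0 < 1 - x := by linarith [hx.2]
    have hu : HasDerivAt (fun x : ℝ => x / (1 - x)) (1 / (1 - x) ^ 2) x := by
      have := (hasDerivAt_id x).div ((hasDerivAt_id x).const_sub 1) h1.ne'
      refine this.congr_deriv ?_
      simp only [id]
      field_simp
      ring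
    have h2 := (((((hu.sub ((hu.pow 2).div_const (2 * ε))).sub
      ((((hu.pow 2).div_const 2).sub ((hu.pow 3).div_const (3 * ε))).const_mul p)).add
      ((((hu.pow 3).div_const 3).sub ((hu.pow 4).div_const (4 * ε))).const_mul q))).const_mul
        S).mul_const (1 / g ^ 2)
    refine h2.congr_deriv ?_
    simp only [Nat.cast_ofNat, show (2 : ℕ) - 1 = 1 from rfl, show (3 : ℕ) - 1 = 2 from rfl,
      show (4 : ℕ) - 1 = 3 from rfl, pow_one]
    field_simp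
  have hne : ∀ x ∈ Icc 0 xe, (1 - x) ≠ 0 := fun x hx => by
    have : 0 < 1 - x := by linarith [hx.2]
    exact this.ne'
  have hcu : ContinuousOn (fun x : ℝ => x / (1 - x)) (Icc 0 xe) :=
    continuousOn_id.div (by fun_prop) hne
  have hco : ContinuousOn (fun x : ℝ => S * (1 - x / (1 - x) / ε)
      * (1 - p * (x / (1 - x)) + q * (x / (1 - x)) ^ 2) / (1 - x) ^ 2
        * (1 / g ^ 2)) (Icc 0 xe) := by
    refine ContinuousOn.mul (ContinuousOn.div ?_ (by fun_prop) fun x hx => pow_ne_zero 2 (hne x hx))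
      continuousOn_const
    refine ContinuousOn.mul (continuousOn_const.mul (continuousOn_const.sub
      (hcu.div_const ε))) ?_
    exact (continuousOn_const.sub (continuousOn_const.mul hcu)).add
      (continuousOn_const.mul (hcu.pow 2))
  have hcont : ContinuousOn (fun x : ℝ => S * (1 - x / (1 - x) / ε)
      * (1 - p * (x / (1 - x)) + q * (x / (1 - x)) ^ 2) / (1 - x) ^ 2
        * (1 / g ^ 2)) (uIcc 0 xe) := by
    rw [uIcc_of_le hxe0]
    exact hco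
  have hint := intervalIntegral.integral_eq_sub_of_hasDerivAt hder hcont.intervalIntegrable
  have hval : ∫ x in (0 : ℝ)..xe, S * (1 - x / (1 - x) / ε)
      * (1 - p * (x / (1 - x)) + q * (x / (1 - x)) ^ 2) / (1 - x) ^ 2 * (1 / g ^ 2)
      = (S * ε / 2) * (1 - p * ε / 3 + q * ε ^ 2 / 6) * (1 / g ^ 2) := by
    rw [hint, hxee]
    have e0 : (0 : ℝ) / (1 - 0) = 0 := by simp
    rw [e0]
    field_simp
    ring
  have hfin : (S * ε / 2) * (1 - p * ε / 3 + q * ε ^ 2 / 6) * (1 / g ^ 2)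
      ≤ (S * ε / 2) * (1 - (0.5786 + 0.4 * σ) * ε) * (1 / g ^ 2) := by
    refine mul_le_mul_of_nonneg_right (mul_le_mul_of_nonneg_left ?_ (by positivity))
      (by positivity)
    have hq0 : 0 ≤ q := by rw [hqdef]; positivity
    have : q * ε ^ 2 ≤ q * (2 / 5 * ε) := mul_le_mul_of_nonneg_left (by nlinarith) hq0
    rw [hpdef]
    rw [hqdef] at this ⊢
    nlinarith
  refine le_trans ?_ hfin
  rw [← hval, intervalIntegral.integral_of_le hxe0, ← integral_Icc_eq_integral_Ioc,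
    ← integral_indicator measurableSet_Icc, ← integral_indicator measurableSet_Icc]
  -- pointwise facts
  have hnn : ∀ x ∈ Icc (0 : ℝ) 1, x < (1 - x) * ε → 0 < 1 - x ∧ 0 ≤ 1 - x / ((1 - x) * ε) := by
    intro x hx h2
    have h6 : 0 < 1 - x := by
      rcases eq_or_lt_of_le hx.2 with h | h
      · rw [h] at h2
        norm_num at h2
      · linarith
    refine ⟨h6, ?_⟩
    have : x / ((1 - x) * ε) ≤ 1 := by
      rw [div_le_one (by positivity)]
      exact h2.le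
    linarith
  -- the polynomial factor is nonnegative
  have hpol : ∀ u : ℝ, 0 ≤ u → u ≤ 2 / 5 → 0 ≤ 1 - p * u + q * u ^ 2 := by
    intro u hu hu2
    have h := ptw hu hu2 hs hs2
    have h1 : 0 ≤ 1 / ((1 - σ) + u + u ^ 2) ^ 2 := by positivity
    have h2 : 0 < 1 / (1 - σ) ^ 2 := by
      rw [← hgdef]
      positivity
    rw [hpdef, hqdef]
    by_contra hneg
    push Not at hneg
    have := mul_neg_of_neg_of_pos hneg h2
    linarith
  refine integral_mono_of_nonneg (Filter.Eventually.of_forall fun x => ?_)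
    ((integrable_indicator_iff measurableSet_Icc).2
      (hco.integrableOn_compact isCompact_Icc)) (Filter.Eventually.of_forall fun x => ?_)
  · simp only [Pi.zero_apply, indicator]
    split_ifs with h1 h2
    · obtain ⟨h6, h7⟩ := hnn x h1 h2
      exact mul_nonneg h6.le (div_nonneg (mul_nonneg h7 (mul_nonneg h6.le hS)) (by positivity))
    · simp
    · exact le_rfl
  · by_cases h1 : x ∈ Icc (0 : ℝ) 1
    · rw [indicator_of_mem h1]
      by_cases h2 : x < (1 - x) * ε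
      · rw [if_pos h2]
        obtain ⟨h6, h10⟩ := hnn x h1 h2
        have h4 : x ≤ xe := by
          rw [hxe, le_div_iff₀ (by positivity)]
          nlinarith
        have h5 : x ∈ Icc (0 : ℝ) xe := ⟨h1.1, h4⟩
        rw [indicator_of_mem h5]
        have hu0 : 0 ≤ x / (1 - x) := div_nonneg h1.1 h6.le
        have hue : x / (1 - x) ≤ 2 / 5 := by
          have : x / (1 - x) ≤ ε := by
            rw [div_le_iff₀ h6]
            linarith
          linarith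
        have hP := ptw hu0 hue hs hs2
        have hm : (g * (1 - x) ^ 2 + x) ^ 2 = (1 - x) ^ 4 * (g + x / (1 - x) + (x / (1 - x)) ^ 2) ^ 2 := by
          field_simp
          ring
        have h8 : 0 ≤ (1 - x / ((1 - x) * ε)) * S := mul_nonneg h10 hS
        have hne' : 0 < (g + x / (1 - x) + (x / (1 - x)) ^ 2) := by positivity
        calc (1 - x) * ((1 - x / ((1 - x) * ε)) * ((1 - x) * S) / (g * (1 - x) ^ 2 + x) ^ 2)
            = ((1 - x / ((1 - x) * ε)) * S) / (1 - x) ^ 2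
                * (1 / (g + x / (1 - x) + (x / (1 - x)) ^ 2) ^ 2) := by
              rw [hm]
              field_simp
          _ ≤ ((1 - x / ((1 - x) * ε)) * S) / (1 - x) ^ 2
                * ((1 - p * (x / (1 - x)) + q * (x / (1 - x)) ^ 2) * (1 / g ^ 2)) :=
              mul_le_mul_of_nonneg_left hP (by positivity)
          _ = S * (1 - x / (1 - x) / ε) * (1 - p * (x / (1 - x)) + q * (x / (1 - x)) ^ 2)
                / (1 - x) ^ 2 * (1 / g ^ 2) := by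
              rw [div_div]
              ring
      · rw [if_neg h2, mul_zero]
        by_cases h3 : x ∈ Icc (0 : ℝ) xe
        · rw [indicator_of_mem h3]
          have h6 : 0 < 1 - x := by linarith [h3.2]
          have hue : x / (1 - x) ≤ ε := by
            rw [div_le_iff₀ h6]
            have := h3.2
            rw [hxe, le_div_iff₀ (by positivity)] at this
            nlinarith
          have h7 : x / (1 - x) / ε ≤ 1 := by
            rw [div_le_one hεp]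
            exact hue
          have h9 := hpol (x / (1 - x)) (div_nonneg h1.1 h6.le) (by linarith)
          have : 0 ≤ 1 - x / (1 - x) / ε := by linarith
          positivity
        · rw [indicator_of_notMem h3]
    · rw [indicator_of_notMem h1]
      by_cases h3 : x ∈ Icc (0 : ℝ) xe
      · exact absurd ⟨h3.1, by linarith [h3.2]⟩ h1
      · rw [indicator_of_notMem h3]


theorem L_le {σ : ℝ} (_h0 : 0 ≤ σ) (h1 : σ ≤ 1 / 4) :
    1 + 2 * σ + 3 * σ ^ 2 + 4 * σ ^ 3 ≤ 1 / (1 - σ) ^ 2 := by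
  have hg : 0 < 1 - σ := by linarith
  rw [le_div_iff₀ (by positivity)]
  have e : 1 - (1 + 2 * σ + 3 * σ ^ 2 + 4 * σ ^ 3) * (1 - σ) ^ 2 = σ ^ 4 * (5 - 4 * σ) := by ring
  have : 0 ≤ σ ^ 4 * (5 - 4 * σ) := mul_nonneg (by positivity) (by linarith)
  linarith

theorem T_le {σ : ℝ} (h0 : 0 ≤ σ) (h1 : σ ≤ 1 / 4) :
    0.5786 + 1.5572 * σ + 2.5358 * σ ^ 2 + 3.5144 * σ ^ 3
      ≤ (0.5786 + 0.4 * σ) * (1 / (1 - σ) ^ 2) := by
  have h := mul_le_mul_of_nonneg_left (L_le h0 h1) (by positivity : 0 ≤ 0.5786 + 0.4 * σ)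
  have h2 : 0 ≤ σ ^ 4 := by positivity
  nlinarith

/-- numerical moments of the second order term -/
theorem int_T (a b c d : ℝ) : ∫ s in (0 : ℝ)..1,
    (a * s ^ 3 + b * (s ^ 2 * (1 - s)) + c * (s * (1 - s) ^ 2) + d * (1 - s) ^ 3)
      * (0.5786 + 1.5572 * (s * (1 - s)) + 2.5358 * (s * (1 - s)) ^ 2
        + 3.5144 * (s * (1 - s)) ^ 3)
    = (0.5786 / 4 + 1.5572 / 30 + 2.5358 / 168 + 3.5144 / 840) * (a + d)
      + (0.5786 / 12 + 1.5572 / 60 + 2.5358 / 280 + 3.5144 / 1260) * (b + c) := by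
  refine Eq.trans (intervalIntegral.integral_congr fun y _ => ?_)
    ((P11
      ((0) * a + (0) * b + (0) * c + (2893 / 5000) * d)
      ((0) * a + (0) * b + (2893 / 5000) * c + (-893 / 5000) * d)
      ((0) * a + (2893 / 5000) * b + (2 / 5) * c + (-4893 / 2500) * d)
      ((2893 / 5000) * a + (4893 / 5000) * b + (-3893 / 2500) * c + (-2 / 5) * d)
      ((3893 / 2500) * a + (-2893 / 5000) * b + (-4893 / 2500) * c + (-4893 / 2500) * d)
      ((4893 / 5000) * a + (-12679 / 5000) * b + (-4893 / 1250) * c + (18072 / 625) * d)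
      ((-3893 / 2500) * a + (-32251 / 5000) * b + (31251 / 1250) * c + (-57609 / 1000) * d)
      ((-40037 / 5000) * a + (92753 / 5000) * b + (-163041 / 5000) * c + (250901 / 5000) * d)
      ((13179 / 1250) * a + (-8786 / 625) * b + (4393 / 250) * c + (-13179 / 625) * d)
      ((-4393 / 1250) * a + (4393 / 1250) * b + (-4393 / 1250) * c + (4393 / 1250) * d)
      (0 : ℝ) (0 : ℝ) 1).trans ?_)
  · ring
  · ring

/-- constants of the second order term -/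
noncomputable def k30 : ℝ := 0.5786 / 4 + 1.5572 / 30 + 2.5358 / 168 + 3.5144 / 840
noncomputable def k21 : ℝ := 0.5786 / 12 + 1.5572 / 60 + 2.5358 / 280 + 3.5144 / 1260

/-- **wall integral, second order** -/
theorem wall_Sim2 {ε₁ ε₂ S₁ S₂ : ℝ} (h1 : 0 ≤ ε₁) (h2 : 0 ≤ ε₂) (h1' : ε₁ ≤ 2 / 5)
    (h2' : ε₂ ≤ 2 / 5) (hS1 : 0 ≤ S₁) (hS2 : 0 ≤ S₂) :
    ∫ t in Sim, wallf ε₁ ε₂ S₁ S₂ t ≤
      1 / 2 * (4916 / 10395 * (S₁ * ε₁ + S₂ * ε₂) + 32891 / 124740 * (S₁ * ε₂ + S₂ * ε₁))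
      - 1 / 2 * (k30 * (S₁ * ε₁ ^ 2 + S₂ * ε₂ ^ 2)
        + k21 * (2 * S₁ * ε₁ * ε₂ + S₂ * ε₁ ^ 2 + (S₁ * ε₂ ^ 2 + 2 * S₂ * ε₁ * ε₂))) := by
  -- pointwise bounds on the simplex
  have hbd : ∀ t ∈ Sim, 0 ≤ wallf ε₁ ε₂ S₁ S₂ t ∧
      wallf ε₁ ε₂ S₁ S₂ t ≤ (S₁ + S₂) * (9 / 4) := by
    rintro t ⟨a1, a2, a3⟩
    have a4 : 0 ≤ t3 t := by simp only [t3]; linarith
    have a5 : t3 t ≤ 1 := by simp only [t3]; linarith
    unfold wallf
    split_ifs with hc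
    · have hL : 0 < ε₁ * t.2 + ε₂ * t3 t := lt_of_le_of_lt a1 hc
      have hm := mm_pos t
      have hm2 : (4 / 9 : ℝ) ≤ mm t ^ 2 := by nlinarith
      have n1 : 0 ≤ 1 - t.1 / (ε₁ * t.2 + ε₂ * t3 t) := by
        have : t.1 / (ε₁ * t.2 + ε₂ * t3 t) ≤ 1 := by
          rw [div_le_one hL]; exact hc.le
        linarith
      have n2 : 1 - t.1 / (ε₁ * t.2 + ε₂ * t3 t) ≤ 1 := by
        have : 0 ≤ t.1 / (ε₁ * t.2 + ε₂ * t3 t) := div_nonneg a1 hL.le
        linarith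
      have n3 : 0 ≤ S₁ * t.2 + S₂ * t3 t := by positivity
      have u1 : S₁ * t.2 ≤ S₁ := mul_le_of_le_one_right hS1 (by linarith)
      have u2 : S₂ * t3 t ≤ S₂ := mul_le_of_le_one_right hS2 a5
      refine ⟨by positivity, ?_⟩
      rw [div_le_iff₀ (by positivity)]
      have k1 : (1 - t.1 / (ε₁ * t.2 + ε₂ * t3 t)) * (S₁ * t.2 + S₂ * t3 t)
          ≤ S₁ * t.2 + S₂ * t3 t := mul_le_of_le_one_left n3 n2
      have k2 : (S₁ + S₂) * 1 ≤ (S₁ + S₂) * (9 / 4 * mm t ^ 2) :=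
        mul_le_mul_of_nonneg_left (by linarith) (by linarith)
      linarith
    · exact ⟨le_rfl, by positivity⟩
  rw [ray_int (wallf_meas _ _ _ _)]
  set H : ℝ × ℝ → ℝ := fun p => (1 - p.1) * wallf ε₁ ε₂ S₁ S₂ (ray p) with hH
  have hHm : Measurable H :=
    (by fun_prop : Measurable fun p : ℝ × ℝ => 1 - p.1).mul
      ((wallf_meas _ _ _ _).comp ray_contin.measurable)
  have hrS : ∀ p ∈ Sq, ray p ∈ Sim := by
    rintro p ⟨⟨a1, a2⟩, a3, a4⟩
    have hx : 0 ≤ 1 - p.1 := by linarith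
    refine ⟨a1, mul_nonneg hx a3, ?_⟩
    have : (1 - p.1) * p.2 ≤ 1 - p.1 := mul_le_of_le_one_right hx a4
    simp only [ray]
    linarith
  have hHi : IntegrableOn H Sq := by
    refine Measure.integrableOn_of_bounded (M := (S₁ + S₂) * (9 / 4)) Sq_fin.ne
      hHm.aestronglyMeasurable ?_
    filter_upwards [ae_restrict_mem Sq_meas] with p hp
    obtain ⟨b1, b2⟩ := hbd _ (hrS p hp)
    have hx : 0 ≤ 1 - p.1 := by linarith [hp.1.2]
    have hx1 : 1 - p.1 ≤ 1 := by linarith [hp.1.1]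
    rw [Real.norm_eq_abs, abs_of_nonneg (mul_nonneg hx b1)]
    exact (mul_le_of_le_one_left b1 hx1).trans b2
  have hFub : ∫ p in Sq, H p = ∫ s in Icc (0 : ℝ) 1, ∫ x in Icc (0 : ℝ) 1, H (x, s) := by
    have hi := hHi
    rw [IntegrableOn, Sq, Measure.volume_eq_prod, ← Measure.prod_restrict] at hi
    rw [Sq, Measure.volume_eq_prod, ← Measure.prod_restrict]
    exact integral_prod_symm _ hi
  rw [hFub]
  set α := S₁ * ε₁ / 2 with hα
  set γ := S₂ * ε₂ / 2 with hγ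
  set β := (S₁ * ε₂ + S₂ * ε₁) / 2 with hβ
  have hα0 : 0 ≤ α := by positivity
  have hγ0 : 0 ≤ γ := by positivity
  have hβ0 : 0 ≤ β := by positivity
  set a := S₁ * ε₁ ^ 2 / 2 with ha
  set b := (2 * S₁ * ε₁ * ε₂ + S₂ * ε₁ ^ 2) / 2 with hb
  set c := (S₁ * ε₂ ^ 2 + 2 * S₂ * ε₁ * ε₂) / 2 with hc
  set d := S₂ * ε₂ ^ 2 / 2 with hd
  have ha0 : 0 ≤ a := by positivity
  have hb0 : 0 ≤ b := by positivity
  have hc0 : 0 ≤ c := by positivity
  have hd0 : 0 ≤ d := by positivity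
  have hc1 : Continuous fun s : ℝ => (α * s ^ 2 + β * (s * (1 - s)) + γ * (1 - s) ^ 2)
    * (1 + 2 * (s * (1 - s)) + 3 * (s * (1 - s)) ^ 2 + 4 * (s * (1 - s)) ^ 3
      + 64 / 9 * (s * (1 - s)) ^ 4) := by fun_prop
  have hc2 : Continuous fun s : ℝ =>
    (a * s ^ 3 + b * (s ^ 2 * (1 - s)) + c * (s * (1 - s) ^ 2) + d * (1 - s) ^ 3)
      * (0.5786 + 1.5572 * (s * (1 - s)) + 2.5358 * (s * (1 - s)) ^ 2
        + 3.5144 * (s * (1 - s)) ^ 3) := by fun_prop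
  have hout : ∫ s in Icc (0 : ℝ) 1, ∫ x in Icc (0 : ℝ) 1, H (x, s)
      ≤ ∫ s in Icc (0 : ℝ) 1, ((α * s ^ 2 + β * (s * (1 - s)) + γ * (1 - s) ^ 2)
    * (1 + 2 * (s * (1 - s)) + 3 * (s * (1 - s)) ^ 2 + 4 * (s * (1 - s)) ^ 3
      + 64 / 9 * (s * (1 - s)) ^ 4)
      - (a * s ^ 3 + b * (s ^ 2 * (1 - s)) + c * (s * (1 - s) ^ 2) + d * (1 - s) ^ 3)
      * (0.5786 + 1.5572 * (s * (1 - s)) + 2.5358 * (s * (1 - s)) ^ 2
        + 3.5144 * (s * (1 - s)) ^ 3)) := by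
    refine integral_mono_of_nonneg ?_ ?_ ?_
    · filter_upwards [ae_restrict_mem measurableSet_Icc] with s hs
      refine setIntegral_nonneg measurableSet_Icc fun x hx => ?_
      exact mul_nonneg (by simp only; linarith [hx.2]) (hbd _ (hrS (x, s) ⟨hx, hs⟩)).1
    · exact (hc1.sub hc2).continuousOn.integrableOn_compact isCompact_Icc
    · filter_upwards [ae_restrict_mem measurableSet_Icc] with s hs
      have hs' : 0 ≤ 1 - s := by linarith [hs.2]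
      have n1 : 0 ≤ S₁ * s := mul_nonneg hS1 hs.1
      have n2 : 0 ≤ S₂ * (1 - s) := mul_nonneg hS2 hs'
      have n3 : 0 ≤ ε₁ * s := mul_nonneg h1 hs.1
      have n4 : 0 ≤ ε₂ * (1 - s) := mul_nonneg h2 hs'
      have k2 : s * (1 - s) ≤ 1 / 4 := by nlinarith [sq_nonneg (s - 1 / 2)]
      have k1 : 0 ≤ s * (1 - s) := mul_nonneg hs.1 hs'
      have n5 : ε₁ * s + ε₂ * (1 - s) ≤ 2 / 5 := by
        nlinarith [mul_le_mul_of_nonneg_right h1' hs.1, mul_le_mul_of_nonneg_right h2' hs']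
      have hf := fibre3 (S := S₁ * s + S₂ * (1 - s)) (ε := ε₁ * s + ε₂ * (1 - s))
        k1 k2 (by linarith) n5 (by linarith)
      have eg : 1 - s * (1 - s) = 1 - s + s ^ 2 := by ring
      have e : ∀ x, H (x, s) = (1 - x) * (if x < (1 - x) * (ε₁ * s + ε₂ * (1 - s)) then
      (1 - x / ((1 - x) * (ε₁ * s + ε₂ * (1 - s)))) * ((1 - x) * (S₁ * s + S₂ * (1 - s)))
        / ((1 - s + s ^ 2) * (1 - x) ^ 2 + x) ^ 2 else 0) := fun x => wallf_ray x s
      simp only [e]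
      rw [eg] at hf
      refine hf.trans ?_
      have hR := R_ge k2
      have hT := T_le k1 k2
      rw [eg] at hR hT
      have e3 : (S₁ * s + S₂ * (1 - s)) * (ε₁ * s + ε₂ * (1 - s)) / 2
          = α * s ^ 2 + β * (s * (1 - s)) + γ * (1 - s) ^ 2 := by
        rw [hα, hβ, hγ]; ring
      have e4 : (S₁ * s + S₂ * (1 - s)) * (ε₁ * s + ε₂ * (1 - s)) / 2
          * (ε₁ * s + ε₂ * (1 - s))
          = a * s ^ 3 + b * (s ^ 2 * (1 - s)) + c * (s * (1 - s) ^ 2) + d * (1 - s) ^ 3 := by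
        rw [ha, hb, hc, hd]; ring
      have p3 : 0 ≤ α * s ^ 2 + β * (s * (1 - s)) + γ * (1 - s) ^ 2 := by positivity
      have p4 : 0 ≤ a * s ^ 3 + b * (s ^ 2 * (1 - s)) + c * (s * (1 - s) ^ 2)
          + d * (1 - s) ^ 3 := by
        have q1 := mul_nonneg ha0 (pow_nonneg hs.1 3)
        have q2 := mul_nonneg hb0 (mul_nonneg (pow_nonneg hs.1 2) hs')
        have q3 := mul_nonneg hc0 (mul_nonneg hs.1 (pow_nonneg hs' 2))
        have q4 := mul_nonneg hd0 (pow_nonneg hs' 3)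
        linarith
      have m1 := mul_le_mul_of_nonneg_left hR p3
      have m2 := mul_le_mul_of_nonneg_left hT p4
      calc (S₁ * s + S₂ * (1 - s)) * (ε₁ * s + ε₂ * (1 - s)) / 2
            * (1 - (0.5786 + 0.4 * (s * (1 - s))) * (ε₁ * s + ε₂ * (1 - s)))
            * (1 / (1 - s + s ^ 2) ^ 2)
          = (α * s ^ 2 + β * (s * (1 - s)) + γ * (1 - s) ^ 2) * (1 / (1 - s + s ^ 2) ^ 2)
            - (a * s ^ 3 + b * (s ^ 2 * (1 - s)) + c * (s * (1 - s) ^ 2) + d * (1 - s) ^ 3)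
              * ((0.5786 + 0.4 * (s * (1 - s))) * (1 / (1 - s + s ^ 2) ^ 2)) := by
            rw [← e3, ← e4]; ring
        _ ≤ _ := by linarith
  refine hout.trans (le_of_eq ?_)
  rw [integral_Icc_eq_integral_Ioc, ← intervalIntegral.integral_of_le zero_le_one,
    intervalIntegral.integral_sub (hc1.intervalIntegrable _ _) (hc2.intervalIntegrable _ _),
    int_R, int_T]
  rw [hα, hβ, hγ, ha, hb, hc, hd, k30, k21]
  ring

/-- the second order wall function -/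
noncomputable def J2 (A B : ℝ) : ℝ :=
  0.1673 * A + 0.0933 * B - 0.0763 * A ^ 2 - 0.0608 * A * B - 0.0304 * B ^ 2

theorem half_const2 {I A B X Y Z W : ℝ} (hX : 0 ≤ X) (hY : 0 ≤ Y) (hZ : 0 ≤ Z) (hW : 0 ≤ W)
    (h : I ≤ 1 / 2 * (4916 / 10395 * X + 32891 / 124740 * Y) - 1 / 2 * (k30 * Z + k21 * W))
    (hA : 0.1673 * X + 0.0933 * Y - 0.0763 * Z - 0.0304 * W ≤ J2 A B) :
    1 / √2 * I ≤ J2 A B := by
  have h0 : (0 : ℝ) ≤ 1 / √2 := by positivity
  have hsq : (1.4142 : ℝ) ≤ √2 := Real.le_sqrt_of_sq_le (by norm_num)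
  have hsq2 : √2 ≤ (1.41422 : ℝ) := by
    rw [Real.sqrt_le_left (by norm_num)]
    norm_num
  have c1 : 1 / √2 * (1 / 2 * (4916 / 10395) : ℝ) ≤ 0.1673 := by
    rw [one_div, inv_mul_le_iff₀ (by positivity)]
    nlinarith
  have c2 : 1 / √2 * (1 / 2 * (32891 / 124740) : ℝ) ≤ 0.0933 := by
    rw [one_div, inv_mul_le_iff₀ (by positivity)]
    nlinarith
  have c3 : 0.0763 ≤ 1 / √2 * (1 / 2 * k30 : ℝ) := by
    rw [one_div, ← div_eq_inv_mul, le_div_iff₀ (by positivity), k30]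
    nlinarith
  have c4 : 0.0304 ≤ 1 / √2 * (1 / 2 * k21 : ℝ) := by
    rw [one_div, ← div_eq_inv_mul, le_div_iff₀ (by positivity), k21]
    nlinarith
  have m1 := mul_le_mul_of_nonneg_right c1 hX
  have m2 := mul_le_mul_of_nonneg_right c2 hY
  have m3 := mul_le_mul_of_nonneg_right c3 hZ
  have m4 := mul_le_mul_of_nonneg_right c4 hW
  have h3 := mul_le_mul_of_nonneg_left h h0
  refine h3.trans (le_trans ?_ hA)
  calc 1 / √2 * (1 / 2 * (4916 / 10395 * X + 32891 / 124740 * Y) - 1 / 2 * (k30 * Z + k21 * W))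
      = 1 / √2 * (1 / 2 * (4916 / 10395)) * X + 1 / √2 * (1 / 2 * (32891 / 124740)) * Y
        - 1 / √2 * (1 / 2 * k30) * Z - 1 / √2 * (1 / 2 * k21) * W := by ring
    _ ≤ _ := by linarith

/-- first corner of the wall -/
theorem wall_10 {A B : ℝ} (hA : 0 ≤ A) (hB : 0 ≤ B) (hA' : A ≤ 2 / 5) (hB' : B ≤ 2 / 5) :
    1 / √2 * ∫ t in Sim, wallf A B 1 0 t ≤ J2 A B := by
  refine half_const2 (X := A) (Y := B) (Z := A ^ 2) (W := 2 * A * B + B ^ 2) hA hB
    (sq_nonneg A) (by positivity) ((wall_Sim2 hA hB hA' hB' zero_le_one (le_refl (0 : ℝ))).trans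
      (le_of_eq (by ring))) (le_of_eq ?_)
  rw [J2]; ring

/-- second corner of the wall -/
theorem wall_01 {A B : ℝ} (hA : 0 ≤ A) (hB : 0 ≤ B) (hA' : A ≤ 2 / 5) (hB' : B ≤ 2 / 5) :
    1 / √2 * ∫ t in Sim, wallf A B 0 1 t ≤ J2 B A := by
  refine half_const2 (X := B) (Y := A) (Z := B ^ 2) (W := 2 * A * B + A ^ 2) hB hA
    (sq_nonneg B) (by positivity) ((wall_Sim2 hA hB hA' hB' (le_refl (0 : ℝ)) zero_le_one).trans
      (le_of_eq (by ring))) (le_of_eq ?_)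
  rw [J2]; ring

/-- **wall terms, second order** (drop-in for `Mass.wl_le`) -/
theorem wl_le2 {N : Fin 3 → Fin 3 → ℝ} (hN : ∀ k m, 0 ≤ N k m) (hN' : ∀ k m, N k m ≤ 2 / 5)
    (hd : ∀ k, N k k = 0) {l j k : Fin 3} (hlj : l ≠ j) (hlk : l ≠ k) (hjk : j ≠ k) :
    1 / √2 * ∫ t in Sim, (1 - thl N (vv t) l) * vv t j / mm t ^ 2 ≤ J2 (N l j) (N l k) := by
  have q01 : ∀ t : ℝ × ℝ, (1 - thl N (vv t) 0) * vv t 1 / mm t ^ 2
      = wallf (N 0 1) (N 0 2) 1 0 t := fun t => by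
    rw [← w0_eq hd, one_mul, zero_mul, add_zero]; rfl
  have q02 : ∀ t : ℝ × ℝ, (1 - thl N (vv t) 0) * vv t 2 / mm t ^ 2
      = wallf (N 0 1) (N 0 2) 0 1 t := fun t => by
    rw [← w0_eq hd, one_mul, zero_mul, zero_add]; rfl
  have q10 : ∀ t : ℝ × ℝ, (1 - thl N (vv t) 1) * vv t 0 / mm t ^ 2
      = wallf (N 1 0) (N 1 2) 1 0 (t.2, t.1) := fun t => by
    rw [← w1_eq hd, one_mul, zero_mul, add_zero]; rfl
  have q12 : ∀ t : ℝ × ℝ, (1 - thl N (vv t) 1) * vv t 2 / mm t ^ 2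
      = wallf (N 1 0) (N 1 2) 0 1 (t.2, t.1) := fun t => by
    rw [← w1_eq hd, one_mul, zero_mul, zero_add]; rfl
  have q21 : ∀ t : ℝ × ℝ, (1 - thl N (vv t) 2) * vv t 1 / mm t ^ 2
      = wallf (N 2 1) (N 2 0) 1 0 (sh t) := fun t => by
    rw [← w2_eq hd, one_mul, zero_mul, add_zero]; rfl
  have q20 : ∀ t : ℝ × ℝ, (1 - thl N (vv t) 2) * vv t 0 / mm t ^ 2
      = wallf (N 2 1) (N 2 0) 0 1 (sh t) := fun t => by
    rw [← w2_eq hd, one_mul, zero_mul, zero_add]; rfl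
  have p01 := wall_10 (hN 0 1) (hN 0 2) (hN' 0 1) (hN' 0 2)
  have p02 := wall_01 (hN 0 1) (hN 0 2) (hN' 0 1) (hN' 0 2)
  have p10 := wall_10 (hN 1 0) (hN 1 2) (hN' 1 0) (hN' 1 2)
  have p12 := wall_01 (hN 1 0) (hN 1 2) (hN' 1 0) (hN' 1 2)
  have p21 := wall_10 (hN 2 1) (hN 2 0) (hN' 2 1) (hN' 2 0)
  have p20 := wall_01 (hN 2 1) (hN 2 0) (hN' 2 1) (hN' 2 0)
  rw [← Sim_swap] at p10 p12
  rw [← Sim_sh] at p21 p20
  fin_cases l <;> fin_cases j <;> fin_cases k <;> simp only [Fin.zero_eta, Fin.mk_one,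
    Fin.reduceFinMk, ne_eq, not_true_eq_false] at hlj hlk hjk ⊢
  · simp only [q01]
    exact p01
  · simp only [q02]
    exact p02
  · simp only [q10]
    exact p10
  · simp only [q12]
    exact p12
  · simp only [q20]
    exact p20
  · simp only [q21]
    exact p21

end Pool.Agent.Helper98.Wall2
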